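import Pool.Agent.H97.PRK.Targets
import Pool.Agent.H65.HD.SC
import Pool.Agent.H17.HD.HB

/-!
# Row INB of the board prk: homogeneous stationary subsets
-/

open Ordinal Cardinal Order Set
open scoped ZFSet

universe u

namespace Pool.Agent.H4.PRK

open _root_.HD HD.PRK

/-- a class which meets all clubs in points of small cofinality is positive for one of them -/
theorem INB_pos (h0 : HD.PRK.T_CI.{u}) {D K : Cardinal.{u}} (hK : K.IsRegular) (hK0 : ℵ₀ < K)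
    (hDK : D < K) {T : Set Ordinal.{u}} (hT : St D.ord K.ord T) :
    ∃ M : Cardinal.{u}, M.IsRegular ∧ M < D ∧ Pos M.ord K.ord T := by
  by_contra hno
  push Not at hno
  have hex : ∀ i : Ordinal.{u}, ∃ C, Clb K.ord C ∧ ∀ M : Cardinal.{u}, M.IsRegular → M < D →
      M.ord = i → ∀ b < K.ord, b ∈ C → b ∈ T → ¬ Cf M.ord b := by
    intro i
    by_cases hi : ∃ M : Cardinal.{u}, M.IsRegular ∧ M < D ∧ M.ord = i
    · obtain ⟨M, h1, h2, h3⟩ := hi
      have h4 := hno M h1 h2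
      unfold Pos at h4
      push Not at h4
      obtain ⟨C, hC, h5⟩ := h4
      refine ⟨C, hC, fun M' _ _ h3' => ?_⟩
      have h6 : M' = M := Cardinal.ord_injective (h3'.trans h3.symm)
      rw [h6]
      exact h5
    · exact ⟨univ, Pool.Agent.H17.HD.HB.clb_univ hK0.le, fun M h1 h2 h3 =>
        absurd ⟨M, h1, h2, h3⟩ hi⟩
  choose C hC hC2 using hex
  have hlim : IsSuccLimit K.ord := Cardinal.isSuccLimit_ord hK0.le
  have hI := h0 K hK hK0 D.ord (Cardinal.ord_lt_ord.2 hDK) C (fun i _ => hC i)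
  have hL := HD.All.ve K hK hK0 succ (fun x hx => hlim.succ_lt hx)
  have hcof : ℵ₀ < K.ord.cof := by
    rw [hK.cof_ord]
    exact hK0
  obtain ⟨a, haK, ⟨haC, ha0, hal⟩, haT, hac⟩ := hT _ (Pool.Agent.H65.HD.clb_inter hcof hI hL)
  have hal2 : IsSuccLimit a := by
    refine ⟨fun hm => ?_, fun b hb => ?_⟩
    · exact absurd (hm.eq_bot) ha0.ne'
    · exact absurd (hal b hb.lt) (by rw [Order.succ_eq_of_covBy hb]; exact lt_irrefl _)
  have hreg := Cardinal.isRegular_cof hal2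
  have hcD : a.cof < D := Cardinal.ord_lt_ord.1 hac
  exact hC2 a.cof.ord a.cof hreg hcD rfl a haK (haC _ hac) haT rfl

theorem pf_INB (h0 : HD.PRK.T_CI.{u}) (h1 : T_GCX.{u}) (h2 : T_HOM.{u}) (h3 : T_AME.{u}) :
    T_INB.{u} := by
  intro δ hext hA K hK hδK T hT
  obtain ⟨D, hD, hDr, hDs, hD0⟩ : ∃ D : Cardinal.{u}, δ = D.ord ∧ D.IsRegular ∧
      D.IsStrongLimit ∧ ℵ₀ < D := by
    obtain ⟨η, -, θ, j, h⟩ := HD.All.xa δ hext 0
    exact HD.All.xb δ η θ j h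
  subst hD
  have hDK : D < K := Cardinal.ord_lt_ord.1 hδK
  have hK0 : ℵ₀ < K := hD0.trans hDK
  have hcof : ℵ₀ < K.ord.cof := by
    rw [hK.cof_ord]
    exact hK0
  have hlim : IsSuccLimit K.ord := Cardinal.isSuccLimit_ord hK0.le
  obtain ⟨δ₀, hδ₀, -, hV⟩ := (HD.All.m14 D.ord hext).resolve_left hA 0
    (Cardinal.isSuccLimit_ord hD0.le).bot_lt
  have hVE : VE K := (hV K hK (hδ₀.trans hδK)).1
  obtain ⟨en, hen⟩ := HD.All.en
  obtain ⟨M, hM, hMD, hpos⟩ := INB_pos h0 hK hK0 hDK hT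
  have hNS := HD.All.xl D.ord hext hA M K hM (Cardinal.ord_lt_ord.2 hMD) hK hδK
  have hNSX := HD.All.ha D.ord M.ord K.ord hNS
  have hat := HD.All.hb en hen D M K hDr hDs hD0 hM hMD hK hDK hNSX
  obtain ⟨τ, hτ, e, he, hnull⟩ := HD.All.hc en hen D M K hDr hD0 hM hMD hK hDK hNSX hat
  -- one of the atoms
  obtain ⟨i, hi, hposi⟩ : ∃ i < τ, Pos M.ord K.ord (T ∩ E en (e i)) := by
    by_contra hno
    have hno' : ∀ i < τ, ¬ Pos M.ord K.ord (T ∩ E en (e i)) := fun i hi h => hno ⟨i, hi, h⟩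
    have hτK : τ.card < K.ord.cof := by
      rw [hK.cof_ord]
      exact (Cardinal.lt_ord.1 hτ).trans hDK
    have hU := HD.All.va M.ord K.ord hcof τ hτK (fun i => T ∩ E en (e i)) hno'
    unfold Pos at hU hnull
    push Not at hU hnull
    obtain ⟨C1, hC1, g1⟩ := hU
    obtain ⟨C2, hC2, g2⟩ := hnull
    obtain ⟨b, hbK, ⟨hb1, hb2⟩, hbT, hbc⟩ := hpos _
      (Pool.Agent.H65.HD.clb_inter hcof hC1 hC2)
    by_cases hb : ∃ i < τ, b ∈ E en (e i)
    · obtain ⟨i, hi, hbi⟩ := hb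
      exact g1 b hbK hb1 ⟨i, hi, hbT, hbi⟩ hbc
    · exact g2 b hbK hb2 (fun i hi hbi => hb ⟨i, hi, hbi⟩) hbc
  have hatom := he i hi
  obtain ⟨C, t, e', hGC⟩ := h1 en hen M K hK hK0 hVE (e i) hatom
  refine ⟨{a | a ∈ T ∧ a ∈ C ∧ a ∈ E en (e i) ∧ Cf M.ord a}, ?_, ?_, ?_⟩
  · rintro a ⟨ha, -, -, hc⟩
    refine ⟨ha, ?_⟩
    have hc' : a.cof.ord = M.ord := hc
    rw [hc']
    exact Cardinal.ord_lt_ord.2 hMD
  · intro C' hC'
    obtain ⟨b, hbK, ⟨hb1, hb2⟩, ⟨hb3, hb4⟩, hb5⟩ := hposi _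
      (Pool.Agent.H65.HD.clb_inter hcof hC' hGC.clb)
    refine ⟨b, hbK, hb1, ⟨hb3, hb2, hb4, hb5⟩, ?_⟩
    have hc' : b.cof.ord = M.ord := hb5
    rw [hc']
    exact Cardinal.ord_lt_ord.2 hMD
  · intro β hβ hβ0 hU
    exact ⟨h2 en M K (e i) C t e' hGC _ (fun a ha => ha.2) β hβ hβ0 hU,
      h3 en M K (e i) C t e' hGC _ (fun a ha => ha.2) β hβ hβ0 hU⟩

end Pool.Agent.H4.PRK
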