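import Pool.Agent.H97.PRK.Targets

/-!
# Row TWO of the board prk: there are fewer than `δ` splitting points
-/

open Ordinal Cardinal Order Set
open scoped ZFSet

universe u

namespace Pool.Agent.H4.PRK

open _root_.HD HD.PRK

/-- the supremum of the image of `K` -/
theorem TWO_sup {δ η θ : Ordinal.{u}} {j : ZFSet.{u} → ZFSet.{u}} (hE : Emb δ η θ j)
    {K : Cardinal.{u}} (hK : K.IsRegular) (hKη : K.ord < η) : ∃ ρ : Ordinal.{u},
    (∀ x < K.ord, Jo j x < ρ) ∧ ∀ y < ρ, ∃ x < K.ord, y < Jo j x := by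
  have hex : ∃ ρ : Ordinal.{u}, ∀ x < K.ord, Jo j x < ρ :=
    ⟨θ, fun x hx => hE.Jo_lt (hx.trans hKη)⟩
  obtain ⟨ρ, hρ, hmin⟩ : ∃ ρ : Ordinal.{u}, (∀ x < K.ord, Jo j x < ρ) ∧
      ∀ y < ρ, ¬ ∀ x < K.ord, Jo j x < y := by
    refine ⟨sInf {ρ : Ordinal.{u} | ∀ x < K.ord, Jo j x < ρ}, csInf_mem hex, fun y hy h => ?_⟩
    have h2 : y ∈ {ρ : Ordinal.{u} | ∀ x < K.ord, Jo j x < ρ} := h
    exact absurd (csInf_le' h2) (not_le.2 hy)
  have hlim : IsSuccLimit K.ord := Cardinal.isSuccLimit_ord hK.aleph0_le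
  refine ⟨ρ, hρ, fun y hy => ?_⟩
  have h1 := hmin y hy
  push Not at h1
  obtain ⟨x, hx, hxy⟩ := h1
  have hsx : succ x < K.ord := hlim.succ_lt hx
  refine ⟨succ x, hsx, hxy.trans_lt ?_⟩
  exact (hE.lt_iff (hx.trans hKη) (hsx.trans hKη)).2 (lt_succ x)

theorem pf_TWO (h0 : T_LFW.{u}) (h1 : T_AL.{u}) (h2 : T_CON.{u}) : T_TWO.{u} := by
  intro δ hext hA K hK hδK μ hμδ hωμ F hF
  obtain ⟨D, hD, hDr, -, hD0⟩ : ∃ D : Cardinal.{u}, δ = D.ord ∧ D.IsRegular ∧ D.IsStrongLimit ∧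
      ℵ₀ < D := by
    obtain ⟨η, -, θ, j, h⟩ := HD.All.xa δ hext 0
    exact HD.All.xb δ η θ j h
  have hω : ω < δ := by
    rw [hD, ← Cardinal.ord_aleph0]
    exact Cardinal.ord_lt_ord.2 hD0
  have hcofδ : δ.cof.ord = δ := by
    rw [hD, hDr.cof_ord]
  obtain ⟨α, hδα, hreg, hlimα, hcofα⟩ := h1 δ hext hA
  obtain ⟨β, hβ⟩ := HD.All.xc _ hF
  obtain ⟨η, hη, θ, j, h⟩ := HD.All.xa δ hext (max (max β K.ord) α)
  have hβη : β < η := lt_of_le_of_lt ((le_max_left _ _).trans (le_max_left _ _)) hη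
  have hKη : K.ord < η := lt_of_le_of_lt ((le_max_right _ _).trans (le_max_left _ _)) hη
  have hαη : α < η := lt_of_le_of_lt (le_max_right _ _) hη
  obtain ⟨hFη, hODF⟩ := hβ δ η θ j h hβη
  have hδη : δ < η := h.dlt
  have hμη : μ < η := hμδ.trans hδη
  obtain ⟨K', hK', hJK⟩ := HD.All.xd δ η θ j h K hK hKη
  have hKK' : K.ord ≤ K'.ord := by
    rw [← hJK]
    exact h.le_Jo hKη
  by_contra hnot
  -- elementarity
  have hl : ∀ x ∈ [μ.toZFSet, K.ord.toZFSet, F, K.ord.toZFSet, δ.toZFSet], x ∈ V_ η := by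
    simp only [List.mem_cons, List.not_mem_nil, or_false, forall_eq_or_imp, forall_eq]
    exact ⟨Gd.ord.2 hμη, Gd.ord.2 hKη, hFη, Gd.ord.2 hKη, Gd.ord.2 hδη⟩
  have htr := h.trl h0 [μ.toZFSet, K.ord.toZFSet, F, K.ord.toZFSet, δ.toZFSet] hl
  have hnot' : ¬ Few (Jo j δ) (SpS μ K'.ord (j F)) := by
    intro hf
    apply hnot
    have h3 : μ.toZFSet.IsOrdinal ∧ K.ord.toZFSet.IsOrdinal ∧ K.ord.toZFSet.IsOrdinal ∧
        δ.toZFSet.IsOrdinal ∧ Few δ.toZFSet.rank {i | i < K.ord.toZFSet.rank ∧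
          Spl μ.toZFSet.rank K.ord.toZFSet.rank F i} := by
      refine htr.2 ?_
      show (j μ.toZFSet).IsOrdinal ∧ (j K.ord.toZFSet).IsOrdinal ∧
        (j K.ord.toZFSet).IsOrdinal ∧
        (j δ.toZFSet).IsOrdinal ∧ Few (j δ.toZFSet).rank {i | i < (j K.ord.toZFSet).rank ∧
          Spl (j μ.toZFSet).rank (j K.ord.toZFSet).rank (j F) i}
      rw [h.fix _ hμδ, h.ord hKη, h.ord hδη, hJK, rank_toZFSet, rank_toZFSet, rank_toZFSet]
      exact ⟨ZFSet.isOrdinal_toZFSet _, ZFSet.isOrdinal_toZFSet _, ZFSet.isOrdinal_toZFSet _,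
        ZFSet.isOrdinal_toZFSet _, hf⟩
    have h4 := h3.2.2.2.2
    rw [rank_toZFSet, rank_toZFSet, rank_toZFSet] at h4
    exact h4
  have hnth : ∀ a < α, ∃ z, nth (SpS μ K'.ord (j F)) a z := fun a ha =>
    ((HD.All.vh (SpS μ K'.ord (j F))).2.2.2 (Jo j δ)).resolve_left hnot' a
      (ha.trans (hαη.trans h.Jo_crit))
  -- the second embedding
  obtain ⟨β', hβ'⟩ := HD.All.xc _ hODF
  obtain ⟨η', hη', θ', j', h'⟩ := HD.All.xa δ hext (max β' K'.ord)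
  have hβη' : β' < η' := lt_of_le_of_lt (le_max_left _ _) hη'
  have hKη' : K'.ord < η' := lt_of_le_of_lt (le_max_right _ _) hη'
  obtain ⟨hFη', -⟩ := hβ' δ η' θ' j' h' hβη'
  obtain ⟨ρ, hr1, hr2⟩ := TWO_sup h' hK' hKη'
  exact h2 δ η' θ' j' K' μ ρ (j F) ⟨h', hK', hω, hδK.trans_le hKK', hKη', hωμ, hμδ, hFη', hr1,
    hr2⟩ hcofδ hODF α hreg hlimα hδα hcofα hnth

end Pool.Agent.H4.PRK
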